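import Pool.Agent.TH658.Geo.Fin

/-!
# Isomorphism of geodetic graphs is as hard as graph isomorphism

A linear space is a set of points with a set of lines such that any two points are on exactly one
line. The graph on its points and flags (incident pairs of a point and a line), in which a point is
adjacent to its flags and two flags with the same line are adjacent, is always geodetic, of
diameter at most five. A graph is encoded in a linear space: the points are the vertices, two
points for each edge and some further points; the large lines are one line for each edge
(containing the two vertices and the two points of the edge) and two lines of three points for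
each vertex, which mark the vertices. All other lines have two points.

Polynomial time is Mathlib's `Turing.TM2ComputableInPolyTime` on bit strings
(`Pool.Agent.NPC.PolyTime`); matrices are coded by bit strings (`bits`).
-/

set_option autoImplicit false

namespace Pool.Agent.Results.MP_f934c9_lc.GeodeticComplete

open Pool.Agent.NPC Pool.Agent.TH658.Geo

/-- (1) There is a polynomial-time computable function `R` which maps the adjacency matrices of
graphs to adjacency matrices of geodetic graphs, which are two-connected and of diameter at most
five, such that two graphs are isomorphic if and only if their images are.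
(2) There is a polynomial-time algorithm that decides isomorphism of geodetic graphs if and only
if graph isomorphism is in `P`. -/
theorem result :
    (∃ (R : Mat → Mat) (F : List Bool → List Bool), PolyTime F ∧
      (∀ M, F (bits M) = bits (R M)) ∧
      (∀ M, IsAdj M → IsAdj (R M) ∧ Geodetic (toG (R M)) ∧ TwoConnected (toG (R M)) ∧
        ∀ x y, (toG (R M)).dist x y ≤ 5) ∧
      ∀ M M', IsAdj M → IsAdj M' →
        (Nonempty (toG M ≃g toG M') ↔ Nonempty (toG (R M) ≃g toG (R M')))) ∧
    (IsoAlg Geodetic ↔ InPP GI) := by
  refine ⟨⟨R, _, polyTime_bits (g := fun x => ((unbits Mat x).map R).getD []) ?_, ?_, ?_, ?_⟩,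
    ?_, ?_⟩
  · refine (NPC.Poly.optCases (o := unbits Mat) (g := fun _ => ([] : Mat)) (h := fun _ M => R M)
      poly_unbits (NPC.Poly.const _) (poly_R (NPC.Poly.snd NPC.Poly.id))).congr fun x => ?_
    cases unbits Mat x <;> rfl
  · intro M
    simp only [unbits_bits, Option.map_some, Option.getD_some]
  · intro M hM
    exact ⟨isAdj_R M, R_props hM⟩
  · exact fun M M' h h' => R_iff h h'
  · rintro ⟨A, hA, h⟩
    exact gi_of_alg ⟨A, hA, fun M M' h1 h2 h3 h4 => h M M' h1 h2 h3.1 h4.1⟩
  · exact alg_of_gi _

end Pool.Agent.Results.MP_f934c9_lc.GeodeticComplete
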